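import Pool.Agent.Y757.HW.Stm0

/-!
# Project HW: counting by integration
-/

set_option autoImplicit false

namespace Pool.Agent.Y219.HW

open MeasureTheory Set
open Pool.Agent.Y757.HW

/-- counting by integration -/
theorem t_cou : S_cou := by
  classical
  intro S m M E _ hE hcount
  obtain ⟨J, hJ⟩ : ∃ J : ℂ → Set ℝ, ∀ ρ, J ρ = Icc (ρ.im - 1 / 2) (ρ.im + 1 / 2) :=
    ⟨_, fun _ => rfl⟩
  have hmem : ∀ (ρ : ℂ) (t : ℝ), t ∈ J ρ ↔ |t - ρ.im| ≤ 1 / 2 := by
    intro ρ t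
    rw [hJ, mem_Icc, abs_le]
    constructor
    · rintro ⟨h1, h2⟩
      constructor <;> linarith
    · rintro ⟨h1, h2⟩
      constructor <;> linarith
  have hJm : ∀ ρ, MeasurableSet (J ρ) := fun ρ => by
    rw [hJ]
    exact measurableSet_Icc
  have hvol : ∀ ρ, volume (J ρ) = 1 := by
    intro ρ
    rw [hJ, Real.volume_Icc, show ρ.im + 1 / 2 - (ρ.im - 1 / 2) = 1 by ring, ENNReal.ofReal_one]
  have hUm : MeasurableSet (⋃ ρ ∈ S, J ρ) := Finset.measurableSet_biUnion S fun ρ _ => hJm ρ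
  have hUE : (⋃ ρ ∈ S, J ρ) ⊆ E := by
    intro t ht
    rw [mem_iUnion₂] at ht
    obtain ⟨ρ, hρ, h⟩ := ht
    exact hE ρ hρ t ((hmem ρ t).1 h)
  calc ENNReal.ofReal (∑ ρ ∈ S, (m ρ : ℝ)) = ∑ ρ ∈ S, ENNReal.ofReal (m ρ : ℝ) :=
        ENNReal.ofReal_sum_of_nonneg fun _ _ => Nat.cast_nonneg _
    _ = ∑ ρ ∈ S, ∫⁻ t, (J ρ).indicator (fun _ => ENNReal.ofReal (m ρ : ℝ)) t := by
        refine Finset.sum_congr rfl fun ρ _ => ?_
        rw [lintegral_indicator_const (hJm ρ), hvol, mul_one]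
    _ = ∫⁻ t, ∑ ρ ∈ S, (J ρ).indicator (fun _ => ENNReal.ofReal (m ρ : ℝ)) t :=
        (lintegral_finsetSum _ fun ρ _ => measurable_const.indicator (hJm ρ)).symm
    _ ≤ ∫⁻ t, (⋃ ρ ∈ S, J ρ).indicator (fun _ => ENNReal.ofReal M) t := by
        refine lintegral_mono fun t => ?_
        have hsum : (∑ ρ ∈ S, (J ρ).indicator (fun _ => ENNReal.ofReal (m ρ : ℝ)) t) =
            ENNReal.ofReal (∑ ρ ∈ S.filter (fun ρ => |t - ρ.im| ≤ 1 / 2), (m ρ : ℝ)) := by
          rw [ENNReal.ofReal_sum_of_nonneg fun _ _ => Nat.cast_nonneg _, Finset.sum_filter]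
          refine Finset.sum_congr rfl fun ρ _ => ?_
          by_cases h : |t - ρ.im| ≤ 1 / 2
          · rw [if_pos h, indicator_of_mem ((hmem ρ t).2 h)]
          · rw [if_neg h, indicator_of_notMem fun h' => h ((hmem ρ t).1 h')]
        by_cases ht : t ∈ ⋃ ρ ∈ S, J ρ
        · rw [indicator_of_mem ht]
          simp only [hsum]
          exact ENNReal.ofReal_le_ofReal (hcount t)
        · rw [indicator_of_notMem ht]
          refine le_of_eq (Finset.sum_eq_zero fun ρ hρ => ?_)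
          exact indicator_of_notMem (fun h => ht (mem_iUnion₂.2 ⟨ρ, hρ, h⟩)) _
    _ = ENNReal.ofReal M * volume (⋃ ρ ∈ S, J ρ) := lintegral_indicator_const hUm _
    _ ≤ ENNReal.ofReal M * volume E := mul_le_mul_right (measure_mono hUE) _

end Pool.Agent.Y219.HW
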